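import Pool.Agent.Y910.F.Stm3

/-!
Job FT-EV: the signed sum polynomial is even in `Y`, sharp degrees.
-/

open Polynomial

set_option autoImplicit false

namespace Pool.Agent.Y774.FT

open Pool.Agent.Y910

section deg

variable {B : Type*} [CommRing B]

/-- weight at most `n` (weight `2` for the inner, `1` for the outer variable) -/
def Wt (n : ℕ) (Q : B[X][X]) : Prop := ∀ j, 2 * (Q.coeff j).natDegree + j ≤ n ∨ Q.coeff j = 0

lemma Wt.mono {n m : ℕ} {Q : B[X][X]} (h : Wt n Q) (hnm : n ≤ m) : Wt m Q := fun j => by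
  rcases h j with h | h
  · exact Or.inl (h.trans hnm)
  · exact Or.inr h

lemma Wt.zero (n : ℕ) : Wt n (0 : B[X][X]) := fun j => Or.inr (coeff_zero j)

lemma Wt.add {n : ℕ} {P Q : B[X][X]} (hP : Wt n P) (hQ : Wt n Q) : Wt n (P + Q) := by
  intro j
  by_cases h : (P + Q).coeff j = 0
  · exact Or.inr h
  · left
    rw [coeff_add] at h ⊢
    have h1 := natDegree_add_le (P.coeff j) (Q.coeff j)
    rcases hP j with h2 | h2
    · rcases hQ j with h3 | h3
      · omega
      · rw [h3, add_zero]; exact h2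
    · rcases hQ j with h3 | h3
      · rw [h2, zero_add]; exact h3
      · exact absurd (by rw [h2, h3, add_zero]) h

lemma Wt.neg {n : ℕ} {P : B[X][X]} (hP : Wt n P) : Wt n (-P) := by
  intro j
  rw [coeff_neg, natDegree_neg, neg_eq_zero]
  exact hP j

lemma Wt.sub {n : ℕ} {P Q : B[X][X]} (hP : Wt n P) (hQ : Wt n Q) : Wt n (P - Q) := by
  rw [sub_eq_add_neg]
  exact hP.add hQ.neg

lemma Wt.sum {ι : Type*} (s : Finset ι) (n : ℕ) (f : ι → B[X][X]) (h : ∀ i ∈ s, Wt n (f i)) :
    Wt n (∑ i ∈ s, f i) := by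
  classical
  induction s using Finset.induction_on with
  | empty => rw [Finset.sum_empty]; exact Wt.zero n
  | insert a s ha ih =>
    rw [Finset.sum_insert ha]
    exact (h a (Finset.mem_insert_self _ _)).add
      (ih fun i hi => h i (Finset.mem_insert_of_mem hi))

lemma Wt.mul {n m : ℕ} {P Q : B[X][X]} (hP : Wt n P) (hQ : Wt m Q) : Wt (n + m) (P * Q) := by
  intro j
  by_cases h : (P * Q).coeff j = 0
  · exact Or.inr h
  · left
    rw [coeff_mul] at h ⊢
    have h1 : ∀ p ∈ Finset.HasAntidiagonal.antidiagonal j,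
        (P.coeff p.1 * Q.coeff p.2).natDegree ≤ (n + m - j) / 2 := by
      intro p hp
      rw [Finset.HasAntidiagonal.mem_antidiagonal] at hp
      rcases hP p.1 with h2 | h2
      · rcases hQ p.2 with h3 | h3
        · have := natDegree_mul_le (p := P.coeff p.1) (q := Q.coeff p.2)
          omega
        · rw [h3, mul_zero, natDegree_zero]; omega
      · rw [h2, zero_mul, natDegree_zero]; omega
    have h2 := natDegree_sum_le_of_forall_le _ _ h1
    have h3 : j ≤ n + m := by
      by_contra hc
      apply h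
      apply Finset.sum_eq_zero
      intro p hp
      rw [Finset.HasAntidiagonal.mem_antidiagonal] at hp
      rcases hP p.1 with h2 | h2
      · rcases hQ p.2 with h3 | h3
        · omega
        · rw [h3, mul_zero]
      · rw [h2, zero_mul]
    omega

lemma Wt.var : Wt 1 (X : B[X][X]) := by
  intro j
  by_cases hj : j = 1
  · left
    rw [hj, coeff_X_one, natDegree_one]
  · right
    rw [coeff_X, if_neg (Ne.symm hj)]

lemma Wt.const {n : ℕ} {u : B[X]} (hu : 2 * u.natDegree ≤ n) : Wt n (C u : B[X][X]) := by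
  intro j
  by_cases hj : j = 0
  · left
    rw [hj, coeff_C_zero]
    omega
  · right
    rw [coeff_C, if_neg hj]

lemma Wt.one (n : ℕ) : Wt n (1 : B[X][X]) := by
  rw [← C_1]
  exact Wt.const (by rw [natDegree_one]; omega)

lemma Wt.pab {u : B[X]} (hu : u.natDegree ≤ 1) (k : ℕ) :
    Wt k (F.pab u k).1 ∧ ∀ m, k ≤ m + 1 → Wt m (F.pab u k).2 := by
  induction k with
  | zero =>
    refine ⟨Wt.one 0, fun m _ => ?_⟩
    simp only [F.pab]; exact Wt.zero m
  | succ k ih =>
    obtain ⟨h1, h2⟩ := ih
    refine ⟨?_, fun m hm => ?_⟩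
    · simp only [F.pab]
      refine Wt.add ?_ ?_
      · rw [add_comm k 1]
        exact Wt.var.mul h1
      · cases k with
        | zero => simp only [F.pab, mul_zero]; exact Wt.zero _
        | succ k =>
          have h3 := (Wt.const (n := 2) (u := u) (by omega)).mul (h2 k le_rfl)
          exact h3.mono (by omega)
    · simp only [F.pab]
      refine Wt.add (h1.mono (by omega)) ?_
      cases k with
      | zero => simp only [F.pab, mul_zero]; exact Wt.zero _
      | succ k => exact (Wt.var.mul (h2 k le_rfl)).mono (by omega)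

lemma Wt.C_mul {n k : ℕ} {c : B[X]} {P : B[X][X]} (hc : 2 * c.natDegree + k ≤ n ∨ c = 0)
    (hP : Wt k P) : Wt n (Polynomial.C c * P) := by
  rcases hc with h | h
  · exact ((Wt.const (le_refl (2 * c.natDegree))).mul hP).mono h
  · rw [h, map_zero, zero_mul]
    exact Wt.zero n

lemma Wt.nm {n : ℕ} (hn : 1 ≤ n) {u : B[X]} (hu : u.natDegree ≤ 1) {Q : B[X][X]} (hQ : Wt n Q) :
    Wt (2 * n) (F.nm n u Q) := by
  have h1 : Wt n (∑ k ∈ Finset.range (n + 1), Polynomial.C (Q.coeff k) * (F.pab u k).1) :=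
    Wt.sum _ _ _ fun k _ => Wt.C_mul (hQ k) (Wt.pab hu k).1
  have h2 : Wt (n - 1) (∑ k ∈ Finset.range (n + 1),
      Polynomial.C (Q.coeff k) * (F.pab u k).2) := by
    refine Wt.sum _ _ _ fun k _ => ?_
    cases k with
    | zero => simp only [F.pab, mul_zero]; exact Wt.zero _
    | succ k =>
      refine Wt.C_mul ?_ ((Wt.pab hu (k + 1)).2 k le_rfl)
      rcases hQ (k + 1) with h | h
      · left; omega
      · exact Or.inr h
  rw [F.nm, two_mul]
  refine Wt.sub ?_ ?_
  · rw [sq]; exact h1.mul h1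
  · rw [sq]
    exact ((Wt.const (n := 2) (u := u) (by omega)).mul (h2.mul h2)).mono (by omega)

lemma Wt.sg (l : List B[X]) (hl : ∀ u ∈ l, u.natDegree ≤ 1) : Wt (2 ^ l.length) (F.sg l) := by
  induction l with
  | nil => exact Wt.var
  | cons u l ih =>
    rw [F.sg, List.length_cons, pow_succ, mul_comm]
    exact Wt.nm Nat.one_le_two_pow (hl u List.mem_cons_self)
      (ih fun v hv => hl v (List.mem_cons_of_mem _ hv))

end deg

section par

variable {B : Type*} [CommRing B]

lemma pab_par (u : B) (k : ℕ) :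
    compRingHom (-X) (F.pab u k).1 = (-1) ^ k * (F.pab u k).1 ∧
    compRingHom (-X) (F.pab u k).2 = (-1) ^ (k + 1) * (F.pab u k).2 := by
  induction k with
  | zero => simp [F.pab]
  | succ k ih =>
    obtain ⟨h1, h2⟩ := ih
    have hX : compRingHom (-X : B[X]) X = -X := by simp
    have hC : compRingHom (-X : B[X]) (C u) = C u := by simp
    simp only [F.pab, map_add, map_mul, hX, hC, h1, h2]
    constructor <;> ring

lemma nm_par (n e : ℕ) (u : B) (Q : B[X])
    (hQ : ∀ k, Q.coeff k = 0 ∨ (-1 : B[X]) ^ k = (-1) ^ e) :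
    compRingHom (-X) (F.nm n u Q) = F.nm n u Q := by
  have hC : ∀ b : B, compRingHom (-X : B[X]) (C b) = C b := fun b => by simp
  have hA : compRingHom (-X) (∑ k ∈ Finset.range (n + 1), C (Q.coeff k) * (F.pab u k).1) =
      (-1) ^ e * ∑ k ∈ Finset.range (n + 1), C (Q.coeff k) * (F.pab u k).1 := by
    rw [map_sum, Finset.mul_sum]
    refine Finset.sum_congr rfl fun k _ => ?_
    rw [map_mul, hC, (pab_par u k).1]
    rcases hQ k with h | h
    · rw [h]; simp
    · rw [h]; ring
  have hB : compRingHom (-X) (∑ k ∈ Finset.range (n + 1), C (Q.coeff k) * (F.pab u k).2) =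
      (-1) ^ (e + 1) * ∑ k ∈ Finset.range (n + 1), C (Q.coeff k) * (F.pab u k).2 := by
    rw [map_sum, Finset.mul_sum]
    refine Finset.sum_congr rfl fun k _ => ?_
    rw [map_mul, hC, (pab_par u k).2]
    rcases hQ k with h | h
    · rw [h]; simp
    · rw [pow_succ, h, pow_succ]; ring
  have hs : ∀ m : ℕ, ((-1 : B[X]) ^ m) ^ 2 = 1 := fun m => by
    rw [← pow_mul, mul_comm, pow_mul]; simp
  rw [F.nm, map_sub, map_mul, map_pow, map_pow, hA, hB, hC, mul_pow, mul_pow, hs, hs, one_mul,
    one_mul]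

lemma sg_par [NoZeroDivisors B] [CharZero B] (u : B) (l : List B) (j : ℕ) (hj : Odd j) :
    (F.sg (u :: l)).coeff j = 0 := by
  have key : ∀ Q : B[X], compRingHom (-X) Q = Q → ∀ j : ℕ, Odd j → Q.coeff j = 0 := by
    intro Q hQ j hj
    have h1 : (Q.comp (-X)).coeff j = Q.coeff j := by
      have := congrArg (fun P => P.coeff j) hQ
      simpa using this
    rw [show (-X : B[X]) = C (-1) * X by simp, comp_C_mul_X_coeff, hj.neg_one_pow] at h1
    have h2 : (2 : B) * Q.coeff j = 0 := by linear_combination -h1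
    rcases mul_eq_zero.1 h2 with h | h
    · exact absurd h two_ne_zero
    · exact h
  induction l generalizing u j with
  | nil =>
    apply key _ _ j hj
    rw [F.sg]
    apply nm_par _ 1
    intro k
    by_cases hk : k = 1
    · right; rw [hk]
    · left; rw [F.sg, coeff_X, if_neg (Ne.symm hk)]
  | cons v l ih =>
    apply key _ _ j hj
    rw [F.sg]
    apply nm_par _ 0
    intro k
    rcases Nat.even_or_odd k with hk | hk
    · right; rw [hk.neg_one_pow, pow_zero]
    · left; exact ih v k hk

end par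

theorem done : F.StEV := by
  intro d hd Fp U hU hmon hdeg hF
  obtain ⟨d, rfl⟩ : ∃ d', d = d' + 1 := ⟨d - 1, by omega⟩
  have hinj : Function.Injective (Int.castRingHom ℂ) := Int.cast_injective
  have hco : ∀ j, (Fp.coeff j).map (Int.castRingHom ℂ) = (F.sg (List.ofFn U)).coeff j := by
    intro j
    rw [← hF, coeff_map, coe_mapRingHom]
  have hodd : ∀ j, Odd j → Fp.coeff j = 0 := by
    intro j hj
    have h1 := hco j
    rw [List.ofFn_succ, sg_par _ _ j hj] at h1
    exact (Polynomial.map_eq_zero_iff hinj).1 h1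
  have hexp : Fp = expand ℤ[X] 2 (contract 2 Fp) := by
    ext1 n
    rw [coeff_expand (by norm_num : 0 < 2)]
    split_ifs with h
    · rw [coeff_contract (by norm_num : (2 : ℕ) ≠ 0), Nat.div_mul_cancel h]
    · exact hodd n (Nat.not_even_iff_odd.1 fun he => h he.two_dvd)
  refine ⟨contract 2 Fp, ?_, ?_, hexp, ?_⟩
  · rw [hexp] at hmon
    exact (monic_expand_iff (by norm_num : 0 < 2)).1 hmon
  · have h1 := hdeg
    rw [hexp, natDegree_expand, pow_succ] at h1
    simpa using Nat.eq_of_mul_eq_mul_right (by norm_num : 0 < 2) h1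
  · intro j
    rw [coeff_contract (by norm_num : (2 : ℕ) ≠ 0)]
    have hW := Wt.sg (List.ofFn U) (fun u hu => by
      rw [List.mem_ofFn] at hu
      obtain ⟨i, rfl⟩ := hu
      exact hU i) (j * 2)
    rw [List.length_ofFn, ← hco] at hW
    rw [natDegree_map_eq_of_injective hinj, pow_succ] at hW
    rcases hW with h | h
    · simp only [Nat.add_sub_cancel]
      omega
    · rw [(Polynomial.map_eq_zero_iff hinj).1 h, natDegree_zero]
      exact Nat.zero_le _

end Pool.Agent.Y774.FT
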